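import Pool.Agent.W_MP_97b08f_lc.Index

open Cardinal Set MeasureTheory Filter Topology
open scoped ENNReal

namespace Pool.Agent.W_MP_97b08f_lc

/-- radii -/
noncomputable def rad (n : ℕ) : ℝ := 1 / ((n : ℝ) + 1)

lemma rad_pos (n : ℕ) : 0 < rad n := by unfold rad; positivity

/-- A Borel set which depends monotonically on the set `B` (modulo null sets). -/
def Den (B : Set ℝ) : Set ℝ :=
  {x | ∀ᶠ n : ℕ in atTop, volume (Metric.closedBall x (rad n)) ≤
    2 * volume (B ∩ Metric.closedBall x (rad n))}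

lemma Den_mono {B B' : Set ℝ} (h : B ≤ᵐ[volume] B') : Den B ⊆ Den B' := by
  intro x hx
  refine Filter.Eventually.mono hx (fun n hn => hn.trans ?_)
  exact mul_le_mul_right (measure_mono_ae (h.inter (EventuallyLE.refl _ _))) 2

lemma measurable_Den {B : Set ℝ} (hB : MeasurableSet B) : MeasurableSet (Den B) := by
  have h1 : ∀ n : ℕ, MeasurableSet {x : ℝ | volume (Metric.closedBall x (rad n)) ≤
      2 * volume (B ∩ Metric.closedBall x (rad n))} := by
    intro n
    have h2 : Measurable (fun x : ℝ => volume (B ∩ Metric.closedBall x (rad n))) := by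
      have hs : MeasurableSet {p : ℝ × ℝ | p.2 ∈ B ∧ dist p.2 p.1 ≤ rad n} := by
        refine MeasurableSet.inter (measurable_snd hB) ?_
        exact measurableSet_le (measurable_snd.dist measurable_fst) measurable_const
      have := measurable_measure_prodMk_left (ν := (volume : Measure ℝ)) hs
      exact this
    refine measurableSet_le ?_ (h2.const_mul 2)
    simp only [Real.volume_closedBall]
    exact measurable_const
  have h3 : Den B = ⋃ N : ℕ, ⋂ n : ℕ, ⋂ _ : N ≤ n,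
      {x : ℝ | volume (Metric.closedBall x (rad n)) ≤
      2 * volume (B ∩ Metric.closedBall x (rad n))} := by
    ext x
    simp [Den, eventually_atTop]
  rw [h3]
  exact MeasurableSet.iUnion fun N => MeasurableSet.iInter fun n => MeasurableSet.iInter fun _ =>
    h1 n

lemma tendsto_rad : Tendsto rad atTop (𝓝[>] 0) := by
  rw [tendsto_nhdsWithin_iff]
  refine ⟨?_, Eventually.of_forall (fun n => rad_pos n)⟩
  exact tendsto_one_div_add_atTop_nhds_zero_nat

lemma Den_ae {B : Set ℝ} (hB : MeasurableSet B) : Den B =ᵐ[volume] B := by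
  have h := Besicovitch.ae_tendsto_measure_inter_div_of_measurableSet (volume : Measure ℝ) hB
  filter_upwards [h] with x hx
  have hx' := hx.comp tendsto_rad
  have hpos : ∀ n : ℕ, volume (Metric.closedBall x (rad n)) ≠ 0 := by
    intro n
    rw [Real.volume_closedBall]
    have := rad_pos n
    simp [this]
  have hfin : ∀ n : ℕ, volume (Metric.closedBall x (rad n)) ≠ ∞ := by
    intro n
    rw [Real.volume_closedBall]
    exact ENNReal.ofReal_ne_top
  apply propext
  change x ∈ Den B ↔ x ∈ B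
  by_cases hxB : x ∈ B
  · refine iff_of_true ?_ hxB
    rw [indicator_of_mem hxB] at hx'
    have hev : ∀ᶠ n : ℕ in atTop, (2⁻¹ : ℝ≥0∞) <
        volume (B ∩ Metric.closedBall x (rad n)) / volume (Metric.closedBall x (rad n)) := by
      have := hx'.eventually (lt_mem_nhds (show (2⁻¹ : ℝ≥0∞) < (1 : ℝ → ℝ≥0∞) x by
        simp))
      exact this
    refine hev.mono (fun n hn => ?_)
    rw [ENNReal.lt_div_iff_mul_lt (Or.inl (hpos n)) (Or.inl (hfin n))] at hn
    calc volume (Metric.closedBall x (rad n))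
        = 2 * (2⁻¹ * volume (Metric.closedBall x (rad n))) := by
          rw [← mul_assoc, ENNReal.mul_inv_cancel (by simp) (by simp), one_mul]
      _ ≤ 2 * volume (B ∩ Metric.closedBall x (rad n)) := by gcongr
  · refine iff_of_false ?_ hxB
    rw [indicator_of_notMem hxB] at hx'
    intro hD
    have hev : ∀ᶠ n : ℕ in atTop,
        volume (B ∩ Metric.closedBall x (rad n)) / volume (Metric.closedBall x (rad n)) <
        (2⁻¹ : ℝ≥0∞) := by
      have := hx'.eventually (gt_mem_nhds (show (0 : ℝ≥0∞) < 2⁻¹ by simp))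
      exact this
    obtain ⟨n, hn1, hn2⟩ := (hD.and hev).exists
    rw [ENNReal.div_lt_iff (Or.inl (hpos n)) (Or.inl (hfin n))] at hn2
    have : volume (Metric.closedBall x (rad n)) < volume (Metric.closedBall x (rad n)) := by
      calc volume (Metric.closedBall x (rad n)) ≤ 2 * volume (B ∩ Metric.closedBall x (rad n)) :=
            hn1
        _ < 2 * (2⁻¹ * volume (Metric.closedBall x (rad n))) := by
            rw [ENNReal.mul_lt_mul_iff_right (by simp) (by simp)]
            exact hn2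
        _ = volume (Metric.closedBall x (rad n)) := by
            rw [← mul_assoc, ENNReal.mul_inv_cancel (by simp) (by simp), one_mul]
    exact lt_irrefl _ this

/-- Under the continuum hypothesis the Borel sets can be enumerated by `Idx`. -/
lemma exists_enum (hCH : (ℵ_ 1 : Cardinal.{0}) = 𝔠) :
    ∃ Bs : Idx → Set ℝ, (∀ i, MeasurableSet (Bs i)) ∧
      ∀ s : Set ℝ, MeasurableSet s → ∃ i, Bs i = s := by
  have hcard : #{s : Set ℝ | MeasurableSet s} ≤ #Idx := by
    rw [mk_Idx, hCH]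
    have h1 : #{s : Set ℝ | @MeasurableSet ℝ
        (MeasurableSpace.generateFrom (TopologicalSpace.countableBasis ℝ)) s} ≤ 𝔠 :=
      MeasurableSpace.cardinal_measurableSet_le_continuum
        ((Cardinal.le_aleph0_iff_set_countable.2
          (TopologicalSpace.countable_countableBasis ℝ)).trans aleph0_le_continuum)
    have h2 : (borel ℝ) = MeasurableSpace.generateFrom (TopologicalSpace.countableBasis ℝ) :=
      (TopologicalSpace.isBasis_countableBasis ℝ).borel_eq_generateFrom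
    have h3 : (inferInstance : MeasurableSpace ℝ) = borel ℝ := BorelSpace.measurable_eq
    rw [← h2, ← h3] at h1
    exact h1
  obtain ⟨g⟩ : Nonempty ({s : Set ℝ | MeasurableSet s} ↪ Idx) := hcard
  have : Nonempty {s : Set ℝ | MeasurableSet s} := by
    refine ⟨⟨∅, ?_⟩⟩
    show MeasurableSet (∅ : Set ℝ)
    exact MeasurableSet.empty
  obtain ⟨f, hf⟩ : ∃ f : Idx → {s : Set ℝ | MeasurableSet s}, Function.Surjective f :=
    ⟨_, Function.invFun_surjective g.injective⟩
  refine ⟨fun i => (f i : Set ℝ), fun i => (f i).2, ?_⟩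
  intro s hs
  obtain ⟨i, hi⟩ := hf ⟨s, hs⟩
  exact ⟨i, by show ((f i : {s : Set ℝ | MeasurableSet s}) : Set ℝ) = s; rw [hi]⟩

/-- An increasing cofinal sequence of null Borel sets. -/
lemma exists_null_seq (Bs : Idx → Set ℝ) (hBm : ∀ i, MeasurableSet (Bs i))
    (hBs : ∀ s : Set ℝ, MeasurableSet s → ∃ i, Bs i = s) :
    ∃ N : Idx → Set ℝ, (∀ β, MeasurableSet (N β)) ∧ (∀ β, volume (N β) = 0) ∧
      (∀ β γ, β ≤ γ → N β ⊆ N γ) ∧ ∀ s : Set ℝ, volume s = 0 → ∃ β, s ⊆ N β := by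
  have hcnt : ∀ β : Idx, {ξ : Idx | ξ ≤ β ∧ volume (Bs ξ) = 0}.Countable := fun β =>
    (Iic_countable β).mono (fun ξ hξ => hξ.1)
  refine ⟨fun β => ⋃ ξ ∈ {ξ : Idx | ξ ≤ β ∧ volume (Bs ξ) = 0}, Bs ξ, ?_, ?_, ?_, ?_⟩
  · exact fun β => MeasurableSet.biUnion (hcnt β) (fun ξ _ => hBm ξ)
  · exact fun β => (measure_biUnion_null_iff (hcnt β)).2 (fun ξ hξ => hξ.2)
  · exact fun β γ h => biUnion_subset_biUnion_left (fun ξ hξ => ⟨hξ.1.trans h, hξ.2⟩)
  · intro s hs
    obtain ⟨i, hi⟩ := hBs (toMeasurable volume s) (measurableSet_toMeasurable _ _)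
    refine ⟨i, (subset_toMeasurable volume s).trans ?_⟩
    have h0 : volume (Bs i) = 0 := by rw [hi, measure_toMeasurable, hs]
    rw [← hi]
    exact subset_biUnion_of_mem (u := Bs) (show i ∈ {ξ : Idx | ξ ≤ i ∧ volume (Bs ξ) = 0} from
      ⟨le_rfl, h0⟩)

/-- The (known) positive half: the continuum hypothesis gives a monotone Borel hull operation on
all Lebesgue measurable sets. -/
theorem hull_of_CH (hCH : (ℵ_ 1 : Cardinal.{0}) = 𝔠) :
    ∃ ψ, IsMonotoneBorelHull {M : Set ℝ | NullMeasurableSet M volume} ψ := by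
  classical
  obtain ⟨Bs, hBm, hBs⟩ := exists_enum hCH
  obtain ⟨N, hNm, hN0, hNmono, hNcof⟩ := exists_null_seq Bs hBm hBs
  let A : Set ℝ → Set Idx := fun M =>
    {α | ∃ ξ ≤ α, Bs ξ =ᵐ[volume] M ∧ M ⊆ Den (Bs ξ) ∪ N α}
  have hA : ∀ M, NullMeasurableSet M volume → (A M).Nonempty := by
    intro M hM
    obtain ⟨s, -, hs, hsM⟩ := hM.exists_measurable_superset_ae_eq
    obtain ⟨ξ, hξ⟩ := hBs s hs
    have h0 : volume (M \ Den (Bs ξ)) = 0 := by
      have h3 : Bs ξ =ᵐ[volume] M := by rw [hξ]; exact hsM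
      have h2 : Den (Bs ξ) =ᵐ[volume] Bs ξ := Den_ae (hBm ξ)
      have h1 : M =ᵐ[volume] Den (Bs ξ) := (h2.trans h3).symm
      exact (ae_le_set.1 h1.le)
    obtain ⟨β, hβ⟩ := hNcof _ h0
    refine ⟨max ξ β, ξ, le_max_left _ _, hξ ▸ hsM, ?_⟩
    intro x hx
    by_cases hxD : x ∈ Den (Bs ξ)
    · exact Or.inl hxD
    · exact Or.inr (hNmono β _ (le_max_right _ _) (hβ ⟨hx, hxD⟩))
  obtain ⟨i0, -⟩ := hBs ∅ MeasurableSet.empty
  have hA' : ∀ M : Set ℝ, ∃ α : Idx, NullMeasurableSet M volume → α ∈ A M := by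
    intro M
    by_cases hM : NullMeasurableSet M volume
    · obtain ⟨α, hα⟩ := hA M hM
      exact ⟨α, fun _ => hα⟩
    · exact ⟨i0, fun h => absurd h hM⟩
  choose α hα using hA'
  let T : Set ℝ → Set (Idx × Idx) := fun M =>
    {p | p.1 ≤ p.2 ∧ p.2 ≤ α M ∧ M ⊆ Den (Bs p.1) ∪ N p.2}
  have hT : ∀ M, (T M).Countable := by
    intro M
    refine ((Iic_countable (α M)).prod (Iic_countable (α M))).mono ?_
    rintro ⟨ξ, β⟩ ⟨h1, h2, -⟩
    exact ⟨h1.trans h2, h2⟩
  let ψ : Set ℝ → Set ℝ := fun M => ⋂ p ∈ T M, (Den (Bs p.1) ∪ N p.2)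
  have hψ0 : ∀ M, NullMeasurableSet M volume → ∃ ξ, Bs ξ =ᵐ[volume] M ∧
      ψ M ⊆ Den (Bs ξ) ∪ N (α M) := by
    intro M hM
    obtain ⟨ξ, hξα, hξM, hsub⟩ := hα M hM
    refine ⟨ξ, hξM, ?_⟩
    exact biInter_subset_of_mem (t := fun p : Idx × Idx => Den (Bs p.1) ∪ N p.2)
      (show (ξ, α M) ∈ T M from ⟨hξα, le_rfl, hsub⟩)
  refine ⟨ψ, ?_, ?_⟩
  · intro M hM
    refine ⟨MeasurableSet.biInter (hT M) (fun p _ => (measurable_Den (hBm _)).union (hNm _)),
      subset_iInter₂ (fun p hp => hp.2.2), ?_⟩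
    obtain ⟨ξ, hξM, hsub⟩ := hψ0 M hM
    have h1 : (Den (Bs ξ) ∪ N (α M) : Set ℝ) =ᵐ[volume] M := by
      have h2 : (Den (Bs ξ) ∪ N (α M) : Set ℝ) =ᵐ[volume] (M ∪ ∅ : Set ℝ) :=
        ((Den_ae (hBm ξ)).trans hξM).union (ae_eq_empty.2 (hN0 _))
      simpa using h2
    have h3 := ae_le_set.1 h1.le
    exact measure_mono_null (sdiff_subset_sdiff_left hsub) h3
  · intro M hM M' hM' hMM' x hx
    refine mem_iInter₂.2 ?_
    rintro ⟨ξ, β⟩ ⟨h1, h2, h3⟩
    by_cases hβ : β ≤ α M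
    · exact mem_iInter₂.1 hx (ξ, β) ⟨h1, hβ, hMM'.trans h3⟩
    · obtain ⟨ξ', hξ'M, hsub⟩ := hψ0 M hM
      have hlt : α M ≤ β := (not_le.1 hβ).le
      have h4 : Bs ξ' ≤ᵐ[volume] Bs ξ := by
        have h5 : M ≤ᵐ[volume] (Den (Bs ξ) ∪ N β : Set ℝ) := (hMM'.trans h3).eventuallyLE
        have h6 : (Den (Bs ξ) ∪ N β : Set ℝ) =ᵐ[volume] (Bs ξ ∪ ∅ : Set ℝ) :=
          (Den_ae (hBm ξ)).union (ae_eq_empty.2 (hN0 _))
        rw [union_empty] at h6
        exact hξ'M.le.trans (h5.trans h6.le)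
      rcases hsub hx with h | h
      · exact Or.inl (Den_mono h4 h)
      · exact Or.inr (hNmono _ _ hlt h)

end Pool.Agent.W_MP_97b08f_lc
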