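import Pool.Agent.W_MP_97b08f_lc.Defs

open Cardinal Set MeasureTheory

namespace Pool.Agent.W_MP_97b08f_lc

/-- `V` is covered by countably many of the sets `C i`. -/
def Cov {ι : Type} (C : ι → Set (ℕ → ℕ)) (V : Set (ℕ → ℕ)) : Prop :=
  ∃ T : Set ι, T.Countable ∧ V ⊆ ⋃ i ∈ T, C i

lemma countable_cyl :
    {V : Set (ℕ → ℕ) | ∃ (x : ℕ → ℕ) (n : ℕ), V = PiNat.cylinder x n}.Countable := by
  have h : {V : Set (ℕ → ℕ) | ∃ (x : ℕ → ℕ) (n : ℕ), V = PiNat.cylinder x n} ⊆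
      range (fun p : (ℕ →₀ ℕ) × ℕ => PiNat.cylinder (p.1 : ℕ → ℕ) p.2) := by
    rintro V ⟨x, n, rfl⟩
    classical
    refine ⟨(Finsupp.onFinset (Finset.range n) (fun i => if i < n then x i else 0) ?_, n), ?_⟩
    · intro a ha
      by_contra h
      simp only [Finset.mem_range] at h
      simp [h] at ha
    · ext y
      simp only [PiNat.cylinder, Finsupp.onFinset_apply, mem_ofPred_eq]
      constructor
      · intro h i hi
        have := h i hi
        simpa [hi] using this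
      · intro h i hi
        have := h i hi
        simpa [hi] using this
  exact (countable_range _).mono h

lemma exists_cyl {ι : Type} (C : ι → Set (ℕ → ℕ)) (U : Set (ℕ → ℕ)) (hU : IsOpen U)
    (hcov : ¬ Cov C U) (n : ℕ) :
    ∃ (x : ℕ → ℕ) (m : ℕ), n ≤ m ∧ PiNat.cylinder x m ⊆ U ∧ ¬ Cov C (PiNat.cylinder x m) := by
  by_contra hcon
  push Not at hcon
  apply hcov
  set 𝒱 : Set (Set (ℕ → ℕ)) :=
    {V | ∃ (x : ℕ → ℕ) (m : ℕ), V = PiNat.cylinder x m ∧ n ≤ m ∧ V ⊆ U} with h𝒱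
  have hcount : 𝒱.Countable :=
    countable_cyl.mono (by rintro V ⟨x, m, hV, -, -⟩; exact ⟨x, m, hV⟩)
  have hC : ∀ V ∈ 𝒱, Cov C V := by
    rintro V ⟨x, m, rfl, hnm, hVU⟩
    exact hcon x m hnm hVU
  choose! T hT1 hT2 using hC
  refine ⟨⋃ V ∈ 𝒱, T V, hcount.biUnion hT1, ?_⟩
  intro x hx
  obtain ⟨W, ⟨y, k, hW⟩, hxW, hWU⟩ :=
    (PiNat.isTopologicalBasis_cylinders (fun _ : ℕ => ℕ)).exists_subset_of_mem_open hx hU
  have hV : PiNat.cylinder x (max n k) ∈ 𝒱 := by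
    refine ⟨x, max n k, rfl, le_max_left _ _, ?_⟩
    refine Subset.trans ?_ hWU
    intro z hz
    subst hW
    intro i hi
    rw [hz i (lt_of_lt_of_le hi (le_max_right _ _))]
    exact hxW i hi
  have := hT2 _ hV (PiNat.self_mem_cylinder x (max n k))
  simp only [mem_iUnion, exists_prop] at this ⊢
  obtain ⟨i, hi, hxi⟩ := this
  exact ⟨i, ⟨_, hV, hi⟩, hxi⟩

/-- Under Martin's Axiom, if Baire space is covered by fewer than continuum many closed sets,
then countably many of them already cover it. -/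
theorem countable_subcover (hMA : MartinsAxiom) {ι : Type} (hι : #ι < 𝔠)
    (C : ι → Set (ℕ → ℕ)) (hC : ∀ i, IsClosed (C i)) (hcov : ∀ x, ∃ i, x ∈ C i) :
    Cov C univ := by
  by_contra hnot
  let P : Type := {V : Set (ℕ → ℕ) //
    (∃ (x : ℕ → ℕ) (n : ℕ), V = PiNat.cylinder x n) ∧ ¬ Cov C V}
  have hPc : Countable P := by
    have : {V : Set (ℕ → ℕ) |
        (∃ (x : ℕ → ℕ) (n : ℕ), V = PiNat.cylinder x n) ∧ ¬ Cov C V}.Countable :=
      countable_cyl.mono (fun V hV => hV.1)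
    exact this.to_subtype
  have hPn : Nonempty P := by
    obtain ⟨x, m, -, -, h⟩ := exists_cyl C univ isOpen_univ hnot 0
    exact ⟨⟨_, ⟨x, m, rfl⟩, h⟩⟩
  let D1 : ℕ → Set P := fun n => {V | ∃ (x : ℕ → ℕ) (m : ℕ), n ≤ m ∧ V.1 = PiNat.cylinder x m}
  let D2 : ι → Set P := fun i => {V | Disjoint V.1 (C i)}
  obtain ⟨G, -, -, hdir, hmeet⟩ := hMA P (fun A _ => A.to_countable) (range D1 ∪ range D2)
    (by
      refine lt_of_le_of_lt (mk_union_le _ _) ?_
      refine add_lt_of_lt aleph0_le_continuum ?_ ?_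
      · exact lt_of_le_of_lt mk_range_le (by simpa using aleph0_lt_continuum)
      · exact lt_of_le_of_lt mk_range_le hι)
    (by
      rintro E (⟨n, rfl⟩ | ⟨i, rfl⟩) V
      · obtain ⟨y, l, hV⟩ := V.2.1
        have hVo : IsOpen V.1 := by rw [hV]; exact PiNat.isOpen_cylinder _ _ _
        obtain ⟨x, m, hnm, hsub, hc⟩ := exists_cyl C V.1 hVo V.2.2 n
        exact ⟨⟨_, ⟨x, m, rfl⟩, hc⟩, ⟨x, m, hnm, rfl⟩, hsub⟩
      · obtain ⟨y, l, hV⟩ := V.2.1
        have hVo : IsOpen (V.1 \ C i) := by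
          rw [hV]; exact (PiNat.isOpen_cylinder _ _ _).sdiff (hC i)
        have hnc : ¬ Cov C (V.1 \ C i) := by
          rintro ⟨T, hT, hTc⟩
          apply V.2.2
          refine ⟨insert i T, hT.insert i, ?_⟩
          intro x hx
          by_cases hxi : x ∈ C i
          · exact mem_biUnion (mem_insert i T) hxi
          · obtain ⟨j, hj, hxj⟩ := mem_iUnion₂.1 (hTc ⟨hx, hxi⟩)
            exact mem_biUnion (mem_insert_of_mem i hj) hxj
        obtain ⟨x, m, -, hsub, hc⟩ := exists_cyl C (V.1 \ C i) hVo hnc 0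
        refine ⟨⟨_, ⟨x, m, rfl⟩, hc⟩, ?_, hsub.trans sdiff_subset⟩
        exact Set.disjoint_left.2 (fun z hz => (hsub hz).2))
  have h1 : ∀ n : ℕ, ∃ (z : ℕ → ℕ) (m : ℕ), n ≤ m ∧ ∃ V ∈ G, V.1 = PiNat.cylinder z m := by
    intro n
    obtain ⟨V, ⟨z, m, hnm, hV⟩, hVG⟩ := hmeet (D1 n) (Or.inl ⟨n, rfl⟩)
    exact ⟨z, m, hnm, V, hVG, hV⟩
  choose z m hnm W hWG hW using h1
  set x : ℕ → ℕ := fun k => z (k + 1) k with hx
  have hxG : ∀ V ∈ G, x ∈ V.1 := by
    intro V hV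
    obtain ⟨y, l, hVy⟩ := V.2.1
    rw [hVy]
    intro k hk
    obtain ⟨r, hrG, hr1, hr2⟩ := hdir V hV (W (k + 1)) (hWG (k + 1))
    obtain ⟨u, l', hru⟩ := r.2.1
    have hu : u ∈ r.1 := by rw [hru]; exact PiNat.self_mem_cylinder _ _
    have hu1 : u ∈ PiNat.cylinder y l := by rw [← hVy]; exact hr1 hu
    have hu2 : u ∈ PiNat.cylinder (z (k + 1)) (m (k + 1)) := by
      rw [← hW (k + 1)]; exact hr2 hu
    have e1 := hu1 k hk
    have e2 := hu2 k (lt_of_lt_of_le (Nat.lt_succ_self k) (hnm (k + 1)))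
    rw [hx]
    simp only
    rw [← e2, e1]
  obtain ⟨i, hi⟩ := hcov x
  obtain ⟨V, hV, hVG⟩ := hmeet (D2 i) (Or.inr ⟨i, rfl⟩)
  exact Set.disjoint_left.1 hV (hxG V hVG) hi

/-- Under Martin's Axiom, if a Borel set of reals is covered by fewer than continuum many closed
sets, then countably many of them already cover it. -/
theorem borel_subcover (hMA : MartinsAxiom) {ι : Type} (hι : #ι < 𝔠)
    (R : Set ℝ) (hR : MeasurableSet R) (C : ι → Set ℝ) (hC : ∀ i, IsClosed (C i))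
    (hcov : R ⊆ ⋃ i, C i) : ∃ T : Set ι, T.Countable ∧ R ⊆ ⋃ i ∈ T, C i := by
  have hA := hR.analyticSet
  rw [MeasureTheory.AnalyticSet] at hA
  rcases hA with h | ⟨f, hf, hfR⟩
  · exact ⟨∅, countable_empty, by simp [h]⟩
  · obtain ⟨T, hT, hTc⟩ := countable_subcover hMA hι (fun i => f ⁻¹' (C i))
      (fun i => (hC i).preimage hf) (fun x => by
        have : f x ∈ ⋃ i, C i := hcov (hfR ▸ mem_range_self x)
        simpa using this)
    refine ⟨T, hT, ?_⟩
    rw [← hfR]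
    rintro _ ⟨x, rfl⟩
    have := hTc (mem_univ x)
    simpa using this

end Pool.Agent.W_MP_97b08f_lc
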