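import Mathlib

open Cardinal Set MeasureTheory

namespace Pool.Agent.W_MP_97b08f_lc

/-- Martin's Axiom: for every (nonempty) partial order `P` in which every set of pairwise
incompatible elements is countable, and every family `D` of fewer than continuum many dense
subsets of `P`, there is a filter on `P` (a nonempty, upward closed, downward directed subset)
which meets every member of `D`. -/
def MartinsAxiom : Prop :=
  ∀ (P : Type) [PartialOrder P] [Nonempty P],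
    (∀ A : Set P, (∀ p ∈ A, ∀ q ∈ A, p ≠ q → ¬ ∃ r, r ≤ p ∧ r ≤ q) → A.Countable) →
    ∀ D : Set (Set P), #D < 𝔠 → (∀ E ∈ D, ∀ p, ∃ q ∈ E, q ≤ p) →
      ∃ G : Set P, G.Nonempty ∧ (∀ p ∈ G, ∀ q, p ≤ q → q ∈ G) ∧
        (∀ p ∈ G, ∀ q ∈ G, ∃ r ∈ G, r ≤ p ∧ r ≤ q) ∧ ∀ E ∈ D, (E ∩ G).Nonempty

/-- `ψ` is a monotone Borel hull operation on the family `F` of subsets of the real line:
for `M ∈ F` the set `ψ M` is Borel, contains `M`, and `ψ M \ M` is a Lebesgue null set;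
and `M ⊆ M'` implies `ψ M ⊆ ψ M'` for `M, M' ∈ F`. (Values of `ψ` outside `F` are irrelevant.) -/
def IsMonotoneBorelHull (F : Set (Set ℝ)) (ψ : Set ℝ → Set ℝ) : Prop :=
  (∀ M ∈ F, MeasurableSet (ψ M) ∧ M ⊆ ψ M ∧ volume (ψ M \ M) = 0) ∧
  ∀ M ∈ F, ∀ M' ∈ F, M ⊆ M' → ψ M ⊆ ψ M'

end Pool.Agent.W_MP_97b08f_lc
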