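import Pool.Agent.W_MP_97b08f_lc.Defs

open Cardinal Set MeasureTheory TopologicalSpace

namespace Pool.Agent.W_MP_97b08f_lc

/-- Conditions of the forcing: finite sets `a` of indices together with basic open sets `q j`
meeting the compact sets `K j`, such that `closure (q j) ⊆ O i` for `i < j` in `a`. -/
@[ext]
structure Cond {I : Type} [LinearOrder I] (O K : I → Set ℝ) : Type where
  a : Finset I
  q : I → Set ℝ
  q_off : ∀ j, j ∉ a → q j = ∅
  q_mem : ∀ j ∈ a, q j ∈ countableBasis ℝ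
  q_ne : ∀ j ∈ a, (K j ∩ q j).Nonempty
  q_cl : ∀ i ∈ a, ∀ j ∈ a, i < j → closure (q j) ⊆ O i

variable {I : Type} [LinearOrder I] {O K : I → Set ℝ}

instance : PartialOrder (Cond O K) where
  le p p' := p'.a ⊆ p.a ∧ ∀ j ∈ p'.a, p.q j ⊆ p'.q j
  le_refl p := ⟨Finset.Subset.refl _, fun _ _ => Subset.rfl⟩
  le_trans p p' p'' h h' := ⟨h'.1.trans h.1, fun j hj => (h.2 j (h'.1 hj)).trans (h'.2 j hj)⟩
  le_antisymm p p' h h' := by
    have ha : p.a = p'.a := Finset.Subset.antisymm h'.1 h.1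
    ext1
    · exact ha
    · funext j
      by_cases hj : j ∈ p.a
      · exact Subset.antisymm (h.2 j (ha ▸ hj)) (h'.2 j hj)
      · rw [p.q_off j hj, p'.q_off j (ha ▸ hj)]

lemma Cond.le_def (p p' : Cond O K) : p ≤ p' ↔ p'.a ⊆ p.a ∧ ∀ j ∈ p'.a, p.q j ⊆ p'.q j :=
  Iff.rfl

/-- Small basic neighbourhoods. -/
lemma exists_basic (x : ℝ) (U : Set ℝ) (hU : IsOpen U) (hx : x ∈ U) :
    ∃ V ∈ countableBasis ℝ, x ∈ V ∧ closure V ⊆ U := by
  obtain ⟨W, hWo, hxW, hWU⟩ : ∃ W, IsOpen W ∧ x ∈ W ∧ closure W ⊆ U := by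
    obtain ⟨ε, hε, hb⟩ := Metric.isOpen_iff.1 hU x hx
    refine ⟨Metric.ball x (ε / 2), Metric.isOpen_ball, Metric.mem_ball_self (half_pos hε), ?_⟩
    refine Metric.closure_ball_subset_closedBall.trans (Subset.trans ?_ hb)
    exact Metric.closedBall_subset_ball (half_lt_self hε)
  obtain ⟨V, hV, hxV, hVW⟩ := (isBasis_countableBasis ℝ).exists_subset_of_mem_open hxW hWo
  exact ⟨V, hV, hxV, (closure_mono hVW).trans hWU⟩

/-- Finite intersections of the open sets are still dense in `K`. -/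
lemma meets_inter (b : Finset I) (Kj q : Set ℝ) (hO : ∀ i, IsOpen (O i))
    (hb : ∀ i ∈ b, Kj ⊆ closure (O i ∩ Kj)) (hq : IsOpen q) (hne : (Kj ∩ q).Nonempty) :
    (Kj ∩ (q ∩ ⋂ i ∈ b, O i)).Nonempty := by
  classical
  induction b using Finset.induction_on with
  | empty => simpa using hne
  | insert i b _ ih =>
    obtain ⟨x, hxK, hxq, hxb⟩ := ih (fun j hj => hb j (Finset.mem_insert_of_mem hj))
    have hopen : IsOpen (q ∩ ⋂ j ∈ b, O j) :=
      hq.inter (isOpen_biInter_finset (fun j _ => hO j))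
    have hx : x ∈ closure (O i ∩ Kj) := hb i (Finset.mem_insert_self i b) hxK
    obtain ⟨y, ⟨hyq, hyb⟩, hyO, hyK⟩ := mem_closure_iff.1 hx _ hopen ⟨hxq, hxb⟩
    refine ⟨y, hyK, hyq, ?_⟩
    simp only [Finset.mem_insert, iInter_iInter_eq_or_left, mem_inter_iff]
    exact ⟨hyO, hyb⟩

lemma exists_uncountable_fiber {α : Type} (A : Set α) (hA : ¬ A.Countable) {ι : Type}
    [Countable ι] (s : ι → Set α) (hs : A ⊆ ⋃ i, s i) : ∃ i, ¬ (A ∩ s i).Countable := by
  by_contra hcon
  push Not at hcon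
  apply hA
  refine (countable_iUnion hcon).mono ?_
  intro x hx
  obtain ⟨i, hi⟩ := mem_iUnion.1 (hs hx)
  exact mem_iUnion.2 ⟨i, hx, hi⟩

/-- The forcing satisfies the countable chain condition. -/
theorem ccc (hO : ∀ i, IsOpen (O i)) (hKO : ∀ i j, j < i → K j ⊆ closure (O i ∩ K j))
    (hIic : ∀ i : I, (Iic i).Countable)
    (hbd : ∀ C : Set I, C.Countable → ∃ b, ∀ c ∈ C, c < b)
    (A : Set (Cond O K)) (hanti : ∀ p ∈ A, ∀ q ∈ A, p ≠ q → ¬ ∃ r, r ≤ p ∧ r ≤ q) :
    A.Countable := by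
  classical
  by_contra hA
  -- uniformize the cardinality of `a`
  obtain ⟨n, hn⟩ := exists_uncountable_fiber A hA (ι := ℕ)
    (fun n => {p | p.a.card = n}) (fun p _ => mem_iUnion.2 ⟨_, rfl⟩)
  set A1 : Set (Cond O K) := A ∩ {p | p.a.card = n} with hA1
  -- a maximal root
  let Pr : ℕ → Prop := fun m => ∃ r : Finset I, r.card = m ∧ ¬ (A1 ∩ {p | r ⊆ p.a}).Countable
  have hPr0 : Pr 0 := ⟨∅, rfl, by simpa using hn⟩
  have hPrn : ∀ m, Pr m → m ≤ n := by
    rintro m ⟨r, rfl, hr⟩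
    have hne : (A1 ∩ {p | r ⊆ p.a}).Nonempty := by
      by_contra h
      rw [not_nonempty_iff_eq_empty] at h
      exact hr (h ▸ countable_empty)
    obtain ⟨p, hp1, hp2⟩ := hne
    have := Finset.card_le_card hp2
    rw [hp1.2] at this
    exact this
  obtain ⟨m, ⟨r, hrm, hr⟩, hmax⟩ : ∃ m, Pr m ∧ ¬ Pr (m + 1) := by
    by_contra hcon
    push Not at hcon
    have : ∀ m, Pr m := by
      intro m
      induction m with
      | zero => exact hPr0
      | succ m ih => exact hcon m ih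
    have := hPrn _ (this (n + 1))
    omega
  have hsmall : ∀ β : I, (A1 ∩ {p | r ⊆ p.a} ∩ {p | ∃ j ∈ p.a, j ∉ r ∧ j ≤ β}).Countable := by
    intro β
    have : (⋃ j ∈ Iic β \ (r : Set I), A1 ∩ {p | insert j r ⊆ p.a}).Countable := by
      refine ((hIic β).mono sdiff_subset).biUnion ?_
      intro j hj
      by_contra hnc
      refine hmax ⟨insert j r, ?_, hnc⟩
      rw [Finset.card_insert_of_notMem (by simpa using hj.2), hrm]
    refine this.mono ?_
    rintro p ⟨⟨hp1, hp2⟩, j, hj, hjr, hjβ⟩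
    refine mem_biUnion (x := j) ⟨hjβ, by simpa using hjr⟩ ⟨hp1, ?_⟩
    exact Finset.insert_subset hj hp2
  -- uniformize `q` on the root
  obtain ⟨s, hs⟩ := exists_uncountable_fiber (A1 ∩ {p | r ⊆ p.a}) hr
    (ι := (↥r → ↥(countableBasis ℝ)))
    (fun s => {p | ∀ j : ↥r, p.q j = (s j : Set ℝ)}) (by
      rintro p ⟨-, hp⟩
      refine mem_iUnion.2 ⟨fun j => ⟨p.q j, p.q_mem j (hp j.2)⟩, ?_⟩
      intro j
      rfl)
  set A2 : Set (Cond O K) := A1 ∩ {p | r ⊆ p.a} ∩ {p | ∀ j : ↥r, p.q j = (s j : Set ℝ)}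
    with hA2
  have hpick : ∀ (B : Set (Cond O K)) (hB : B.Countable) (β : I),
      ∃ p ∈ A2, p ∉ B ∧ ∀ j ∈ p.a, j ∉ r → β < j := by
    intro B hB β
    by_contra hcon
    push Not at hcon
    apply hs
    refine (hB.union (hsmall β)).mono ?_
    intro p hp
    by_cases hpB : p ∈ B
    · exact Or.inl hpB
    · obtain ⟨j, hj, hjr, hjβ⟩ := hcon p hp hpB
      exact Or.inr ⟨hp.1, j, hj, hjr, hjβ⟩
  -- Lindelof
  let N : ℕ := n - m
  let U : Cond O K → Set ℝ := fun p => ⋂ i ∈ p.a \ r, O i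
  have hU : ∀ p, IsOpen (U p) := fun p => isOpen_biInter_finset (fun i _ => hO i)
  let Gs : Cond O K → Set (Fin N → ℝ) := fun p => Set.pi univ (fun _ => U p)
  obtain ⟨A0, hA0s, hA0c, hA0⟩ := isOpen_biUnion_countable A2 Gs
    (fun p _ => isOpen_set_pi finite_univ (fun _ _ => hU p))
  obtain ⟨β, hβ⟩ := hbd (⋃ p ∈ A0, (p.a : Set I))
    (hA0c.biUnion (fun p _ => p.a.countable_toSet))
  obtain ⟨p', hp'A, hp'0, hp'β⟩ := hpick A0 hA0c β
  obtain ⟨γ, hγ⟩ := hbd (p'.a : Set I) p'.a.countable_toSet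
  obtain ⟨p'', hp''A, -, hp''γ⟩ := hpick ∅ countable_empty γ
  -- the points
  have hz : ∀ j : I, ∃ z : ℝ, j ∈ p'.a → z ∈ K j ∧ z ∈ p'.q j ∧ z ∈ U p'' := by
    intro j
    by_cases hj : j ∈ p'.a
    · obtain ⟨z, hz1, hz2, hz3⟩ := meets_inter (O := O) (p''.a \ r) (K j) (p'.q j) hO
        (by
          intro i hi
          rw [Finset.mem_sdiff] at hi
          exact hKO i j ((hγ j hj).trans (hp''γ i hi.1 hi.2)))
        ((isBasis_countableBasis ℝ).isOpen (p'.q_mem j hj)) (p'.q_ne j hj)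
      exact ⟨z, fun _ => ⟨hz1, hz2, hz3⟩⟩
    · exact ⟨0, fun h => absurd h hj⟩
  choose z hz using hz
  have hcard : (p'.a \ r).card = N := by
    rw [Finset.card_sdiff_of_subset hp'A.1.2, hp'A.1.1.2, hrm]
  let e : ↥(p'.a \ r) ≃ Fin N := Finset.equivFinOfCardEq hcard
  let zz : Fin N → ℝ := fun l => z (e.symm l)
  have hzz : zz ∈ ⋃ p ∈ A2, Gs p := by
    refine mem_biUnion hp''A ?_
    intro l _
    exact (hz _ (Finset.mem_sdiff.1 (e.symm l).2).1).2.2
  rw [← hA0] at hzz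
  obtain ⟨p, hp0, hzp⟩ := mem_iUnion₂.1 hzz
  have hzU : ∀ j ∈ p'.a, j ∉ r → z j ∈ U p := by
    intro j hj hjr
    have := hzp (e ⟨j, Finset.mem_sdiff.2 ⟨hj, hjr⟩⟩) (mem_univ _)
    simpa [zz] using this
  have hpA : p ∈ A2 := hA0s hp0
  have hrp : r ⊆ p.a := hpA.1.2
  have hrp' : r ⊆ p'.a := hp'A.1.2
  -- elements of `p.a` are below those of `p'.a \ r`
  have hlt : ∀ i ∈ p.a, ∀ j ∈ p'.a, j ∉ r → i < j := by
    intro i hi j hj hjr
    exact (hβ i (mem_biUnion hp0 hi)).trans (hp'β j hj hjr)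
  -- the shrunk neighbourhoods
  have hV : ∀ j : I, ∃ V : Set ℝ, (j ∈ p'.a → j ∉ r →
      V ∈ countableBasis ℝ ∧ z j ∈ V ∧ closure V ⊆ p'.q j ∩ U p) := by
    intro j
    by_cases hj : j ∈ p'.a ∧ j ∉ r
    · obtain ⟨V, hV1, hV2, hV3⟩ := exists_basic (z j) (p'.q j ∩ U p)
        (((isBasis_countableBasis ℝ).isOpen (p'.q_mem j hj.1)).inter (hU p))
        ⟨(hz j hj.1).2.1, hzU j hj.1 hj.2⟩
      exact ⟨V, fun _ _ => ⟨hV1, hV2, hV3⟩⟩
    · exact ⟨∅, fun h1 h2 => absurd ⟨h1, h2⟩ hj⟩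
  choose V hV using hV
  have hnr : ∀ j ∈ p'.a, j ∉ p.a → j ∉ r := fun j _ hj hjr => hj (hrp hjr)
  have hinr : ∀ j ∈ p'.a, j ∈ p.a → j ∈ r := by
    intro j hj hjp
    by_contra hjr
    exact lt_irrefl _ (hlt j hjp j hj hjr)
  let t : Cond O K :=
    { a := p.a ∪ p'.a
      q := fun j => if j ∈ p.a then p.q j else if j ∈ p'.a then V j else ∅
      q_off := by
        intro j hj
        rw [Finset.mem_union, not_or] at hj
        simp [hj.1, hj.2]
      q_mem := by
        intro j hj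
        by_cases hjp : j ∈ p.a
        · simpa [hjp] using p.q_mem j hjp
        · have hjp' : j ∈ p'.a := (Finset.mem_union.1 hj).resolve_left hjp
          simpa [hjp, hjp'] using (hV j hjp' (hnr j hjp' hjp)).1
      q_ne := by
        intro j hj
        by_cases hjp : j ∈ p.a
        · simpa [hjp] using p.q_ne j hjp
        · have hjp' : j ∈ p'.a := (Finset.mem_union.1 hj).resolve_left hjp
          simp only [hjp, hjp', if_true, if_false]
          exact ⟨z j, (hz j hjp').1, (hV j hjp' (hnr j hjp' hjp)).2.1⟩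
      q_cl := by
        intro i hi j hj hij
        by_cases hjp : j ∈ p.a
        · simp only [hjp, if_true]
          by_cases hip : i ∈ p.a
          · exact p.q_cl i hip j hjp hij
          · have hip' : i ∈ p'.a := (Finset.mem_union.1 hi).resolve_left hip
            exact absurd (hlt j hjp i hip' (hnr i hip' hip)) (not_lt.2 hij.le)
        · have hjp' : j ∈ p'.a := (Finset.mem_union.1 hj).resolve_left hjp
          have hVj := (hV j hjp' (hnr j hjp' hjp)).2.2
          simp only [hjp, hjp', if_true, if_false]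
          by_cases hip' : i ∈ p'.a
          · refine Subset.trans (hVj.trans ?_) (p'.q_cl i hip' j hjp' hij)
            exact inter_subset_left.trans subset_closure
          · have hip : i ∈ p.a := (Finset.mem_union.1 hi).resolve_right hip'
            have hir : i ∈ p.a \ r := Finset.mem_sdiff.2 ⟨hip, fun h => hip' (hrp' h)⟩
            refine hVj.trans (inter_subset_right.trans ?_)
            exact biInter_subset_of_mem (t := fun i => O i) (show i ∈ (p.a \ r : Finset I) from hir) }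
  have htp : t ≤ p := by
    rw [Cond.le_def]
    refine ⟨Finset.subset_union_left, ?_⟩
    intro j hj
    simp [t, hj]
  have htp' : t ≤ p' := by
    rw [Cond.le_def]
    refine ⟨Finset.subset_union_right, ?_⟩
    intro j hj
    by_cases hjp : j ∈ p.a
    · have hjr := hinr j hj hjp
      simp only [t, hjp, if_true]
      rw [hpA.2 ⟨j, hjr⟩, hp'A.2 ⟨j, hjr⟩]
    · simp only [t, hjp, hj, if_true, if_false]
      exact subset_closure.trans ((hV j hj (hnr j hj hjp)).2.2.trans inter_subset_left)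
  have hpp' : p ≠ p' := fun h => hp'0 (h ▸ hp0)
  exact hanti p hpA.1.1.1 p' hp'A.1.1.1 hpp' ⟨t, htp, htp'⟩

/-- The generic tower. -/
theorem exists_tower (hMA : MartinsAxiom) (hIc : #I < 𝔠) (hO : ∀ i, IsOpen (O i))
    (hK : ∀ i, IsCompact (K i))
    (hKO : ∀ i j, j < i → K j ⊆ closure (O i ∩ K j))
    (hIic : ∀ i : I, (Iic i).Countable)
    (hbd : ∀ C : Set I, C.Countable → ∃ b, ∀ c ∈ C, c < b)
    (n : I → ℕ)
    (hmeet : ∀ (a : Finset I) (β : I) (N : ℕ), ∃ i, β < i ∧ (∀ j ∈ a, j < i) ∧ N ≤ n i ∧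
      (K i ∩ ⋂ j ∈ a, O j).Nonempty) :
    ∃ (S : Set I) (y : I → ℝ), (∀ β N, ∃ i ∈ S, β < i ∧ N ≤ n i) ∧ (∀ i ∈ S, y i ∈ K i) ∧
      ∀ i ∈ S, ∀ j ∈ S, i < j → y j ∈ O i := by
  classical
  have hne : Nonempty (Cond O K) :=
    ⟨⟨∅, fun _ => ∅, by simp, by simp, by simp, by simp⟩⟩
  let D : I × ℕ → Set (Cond O K) := fun x => {p | ∃ i ∈ p.a, x.1 < i ∧ x.2 ≤ n i}
  obtain ⟨G, -, -, hdir, hGD⟩ := hMA (Cond O K)
    (fun A hA => ccc hO hKO hIic hbd A hA) (range D)
    (by
      refine lt_of_le_of_lt mk_range_le ?_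
      rw [mk_prod, lift_id, lift_id]
      exact mul_lt_of_lt aleph0_le_continuum hIc (by simpa using aleph0_lt_continuum))
    (by
      rintro _ ⟨⟨β, N⟩, rfl⟩ p
      obtain ⟨i, hβi, hai, hNi, x, hxK, hxO⟩ := hmeet p.a β N
      obtain ⟨V, hV1, hV2, hV3⟩ := exists_basic x (⋂ j ∈ p.a, O j)
        (isOpen_biInter_finset (fun i _ => hO i)) hxO
      have hip : i ∉ p.a := fun h => lt_irrefl _ (hai i h)
      refine ⟨⟨insert i p.a, Function.update p.q i V, ?_, ?_, ?_, ?_⟩,
        ⟨i, Finset.mem_insert_self _ _, hβi, hNi⟩, ?_⟩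
      · intro j hj
        rw [Finset.mem_insert, not_or] at hj
        rw [Function.update_of_ne hj.1]
        exact p.q_off j hj.2
      · intro j hj
        by_cases hji : j = i
        · subst hji; simpa using hV1
        · rw [Function.update_of_ne hji]
          exact p.q_mem j ((Finset.mem_insert.1 hj).resolve_left hji)
      · intro j hj
        by_cases hji : j = i
        · subst hji; simpa using ⟨x, hxK, hV2⟩
        · rw [Function.update_of_ne hji]
          exact p.q_ne j ((Finset.mem_insert.1 hj).resolve_left hji)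
      · intro l hl j hj hlj
        by_cases hji : j = i
        · subst hji
          have hl' : l ∈ p.a := (Finset.mem_insert.1 hl).resolve_left (ne_of_lt hlj)
          simp only [Function.update_self]
          exact hV3.trans (biInter_subset_of_mem (t := fun i => O i) hl')
        · rw [Function.update_of_ne hji]
          have hj' : j ∈ p.a := (Finset.mem_insert.1 hj).resolve_left hji
          have hl' : l ∈ p.a := by
            rcases Finset.mem_insert.1 hl with h | h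
            · subst h
              exact absurd (hai j hj') (not_lt.2 hlj.le)
            · exact h
          exact p.q_cl l hl' j hj' hlj
      · rw [Cond.le_def]
        refine ⟨Finset.subset_insert _ _, ?_⟩
        intro j hj
        have hji : j ≠ i := fun h => hip (h ▸ hj)
        simp only [Function.update_of_ne hji]
        exact Subset.rfl)
  let S : Set I := {i | ∃ p ∈ G, i ∈ p.a}
  have hy : ∀ i : I, ∃ y : ℝ, i ∈ S → y ∈ K i ∧ ∀ p ∈ G, i ∈ p.a → y ∈ closure (p.q i) := by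
    intro i
    by_cases hi : i ∈ S
    · obtain ⟨p0, hp0, hip0⟩ := hi
      let ι := {p : Cond O K // p ∈ G ∧ i ∈ p.a}
      haveI : Nonempty ι := ⟨⟨p0, hp0, hip0⟩⟩
      have := IsCompact.nonempty_iInter_of_directed_nonempty_isCompact_isClosed
        (fun p : ι => K i ∩ closure (p.1.q i))
        (by
          rintro ⟨p, hp, hip⟩ ⟨p', hp', hip'⟩
          obtain ⟨r, hrG, hr1, hr2⟩ := hdir p hp p' hp'
          refine ⟨⟨r, hrG, hr1.1 hip⟩, ?_, ?_⟩
          · exact inter_subset_inter_right _ (closure_mono (hr1.2 i hip))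
          · exact inter_subset_inter_right _ (closure_mono (hr2.2 i hip')))
        (fun p => (p.1.q_ne i p.2.2).mono (inter_subset_inter_right _ subset_closure))
        (fun p => (hK i).inter_right isClosed_closure)
        (fun p => (hK i).isClosed.inter isClosed_closure)
      obtain ⟨y, hy⟩ := this
      refine ⟨y, fun _ => ⟨(mem_iInter.1 hy ⟨p0, hp0, hip0⟩).1, fun p hp hip => ?_⟩⟩
      exact (mem_iInter.1 hy ⟨p, hp, hip⟩).2
    · exact ⟨0, fun h => absurd h hi⟩
  choose y hy using hy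
  refine ⟨S, y, ?_, fun i hi => (hy i hi).1, ?_⟩
  · intro β N
    obtain ⟨p, ⟨i, hip, hβi, hNi⟩, hpG⟩ := hGD _ ⟨(β, N), rfl⟩
    exact ⟨i, ⟨p, hpG, hip⟩, hβi, hNi⟩
  · rintro i ⟨p, hp, hip⟩ j ⟨p', hp', hjp'⟩ hij
    obtain ⟨r, hrG, hr1, hr2⟩ := hdir p hp p' hp'
    have hjr : j ∈ r.a := hr2.1 hjp'
    have hir : i ∈ r.a := hr1.1 hip
    exact r.q_cl i hir j hjr hij ((hy j ⟨p', hp', hjp'⟩).2 r hrG hjr)

end Pool.Agent.W_MP_97b08f_lc
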