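import Pool.Agent.W_MP_97b08f_lc.Defs

open Cardinal Set

namespace Pool.Agent.W_MP_97b08f_lc

/-- An index type whose order type is the first uncountable ordinal. -/
abbrev Idx : Type := (Cardinal.aleph 1).ord.ToType

lemma mk_Idx : #Idx = Cardinal.aleph 1 := mk_ord_toType _

lemma Iic_countable (i : Idx) : (Iic i).Countable := by
  have h1 : #(Iio i) < Cardinal.aleph 1 := by
    simpa using mk_Iio_lt i
  have h2 : (Iio i).Countable := (Cardinal.countable_iff_lt_aleph_one (Iio i)).2 h1
  have h3 : Iic i = insert i (Iio i) := by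
    ext j
    simp [le_iff_eq_or_lt]
  rw [h3]
  exact h2.insert i

lemma Idx_bdd (C : Set Idx) (hC : C.Countable) : ∃ b, ∀ c ∈ C, c < b := by
  by_contra hcon
  push Not at hcon
  have h : (univ : Set Idx).Countable := by
    refine (hC.biUnion (fun c _ => Iic_countable c)).mono ?_
    intro b _
    obtain ⟨c, hc, hbc⟩ := hcon b
    exact mem_biUnion hc hbc
  have h1 := (Cardinal.countable_iff_lt_aleph_one (univ : Set Idx)).1 h
  rw [mk_univ, mk_Idx] at h1
  exact lt_irrefl _ h1

lemma exists_labels : ∃ n : Idx → ℕ, ∀ (β : Idx) (N : ℕ), ∃ i, β < i ∧ n i = N := by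
  have hcard : #Idx = #(Idx × ℕ) := by
    rw [mk_prod, lift_id, lift_id, mk_Idx, mk_nat, Cardinal.mul_eq_left]
    · exact aleph0_le_aleph 1
    · exact aleph0_le_aleph 1
    · exact aleph0_ne_zero
  obtain ⟨e⟩ := Cardinal.eq.1 hcard
  refine ⟨fun i => (e i).2, ?_⟩
  intro β N
  by_contra hcon
  push Not at hcon
  have hc : (range (fun i : Idx => e.symm (i, N))).Countable := by
    refine (Iic_countable β).mono ?_
    rintro _ ⟨i, rfl⟩
    by_contra hlt
    exact hcon _ (not_le.1 hlt) (by simp)
  have hinj : Function.Injective (fun i : Idx => e.symm (i, N)) := by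
    intro i j hij
    have := e.symm.injective hij
    exact (Prod.mk.inj this).1
  have h2 : (univ : Set Idx).Countable := by
    rw [← image_univ] at hc
    exact (countable_of_injective_of_countable_image hinj.injOn hc)
  have h1 := (Cardinal.countable_iff_lt_aleph_one (univ : Set Idx)).1 h2
  rw [mk_univ, mk_Idx] at h1
  exact lt_irrefl _ h1

end Pool.Agent.W_MP_97b08f_lc
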