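import Pool.Agent.W_MP_97b08f_lc.Index
import Pool.Agent.W_MP_97b08f_lc.Cover
import Pool.Agent.W_MP_97b08f_lc.Forcing

open Cardinal Set MeasureTheory TopologicalSpace
open scoped ENNReal

namespace Pool.Agent.W_MP_97b08f_lc

/-- The small numbers used in the construction. -/
noncomputable def eps (k : ℕ) : ℝ≥0∞ := ((k : ℝ≥0∞) + 4)⁻¹

lemma eps_pos (k : ℕ) : 0 < eps k := by
  rw [eps, ENNReal.inv_pos]
  exact ENNReal.add_ne_top.2 ⟨ENNReal.natCast_ne_top k, by simp⟩

lemma eps_le (k : ℕ) : eps k ≤ 4⁻¹ := by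
  rw [eps]
  exact ENNReal.inv_le_inv.2 le_add_self

lemma eps_ne_top (k : ℕ) : eps k ≠ ∞ := ne_top_of_le_ne_top (by simp) (eps_le k)

lemma eps_anti {k l : ℕ} (h : k ≤ l) : eps l ≤ eps k := by
  rw [eps, eps]
  exact ENNReal.inv_le_inv.2 (by gcongr)

lemma exists_eps_lt (δ : ℝ≥0∞) (hδ : δ ≠ 0) : ∃ k : ℕ, ∀ l, k ≤ l → 2 * eps l < δ := by
  obtain ⟨k, hk⟩ := ENNReal.exists_inv_nat_lt (a := δ / 2) (by simpa using hδ)
  refine ⟨k, fun l hl => ?_⟩
  have h1 : eps l ≤ (k : ℝ≥0∞)⁻¹ := by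
    rw [eps]
    refine ENNReal.inv_le_inv.2 ?_
    calc (k : ℝ≥0∞) ≤ l := by exact_mod_cast hl
      _ ≤ l + 4 := le_self_add
  have h2 : eps l < δ / 2 := lt_of_le_of_lt h1 hk
  calc 2 * eps l < 2 * (δ / 2) := by
        rw [ENNReal.mul_lt_mul_iff_right (by simp) (by simp)]
        exact h2
    _ = δ := ENNReal.mul_div_cancel (by simp) (by simp)

/-- A small open dense set which is dense in countably many given sets. -/
lemma exists_open {κ : Type} (hκ : Countable κ) (K : κ → Set ℝ) (ε : ℝ≥0∞) (hε : 0 < ε) :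
    ∃ O : Set ℝ, IsOpen O ∧ volume O < ε ∧ Dense O ∧ ∀ j, K j ⊆ closure (O ∩ K j) := by
  have h1 : ∀ j, ∃ t, t ⊆ K j ∧ t.Countable ∧ K j ⊆ closure t := fun j =>
    (IsSeparable.of_separableSpace (K j)).exists_countable_dense_subset
  choose t ht1 ht2 ht3 using h1
  obtain ⟨D, hDc, hDd⟩ := exists_countable_dense ℝ
  have hcount : (D ∪ ⋃ j, t j).Countable := hDc.union (countable_iUnion ht2)
  have hnull : volume (D ∪ ⋃ j, t j) < ε := by
    rw [hcount.measure_zero]
    exact hε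
  obtain ⟨O, hDO, hO, hOε⟩ := Set.exists_isOpen_lt_of_lt _ _ hnull
  refine ⟨O, hO, hOε, hDd.mono (subset_union_left.trans hDO), ?_⟩
  intro j
  refine (ht3 j).trans (closure_mono (subset_inter ?_ (ht1 j)))
  exact (subset_iUnion t j).trans (subset_union_right.trans hDO)

/-- The negative half: under Martin's Axiom and the negation of the continuum hypothesis there is
no monotone Borel hull operation on a family containing all null sets and all open sets. -/
theorem no_hull (hMA : MartinsAxiom) (hCH : (ℵ_ 1 : Cardinal.{0}) < 𝔠) (F : Set (Set ℝ))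
    (hnull : ∀ N : Set ℝ, volume N = 0 → N ∈ F) (hopen : ∀ U : Set ℝ, IsOpen U → U ∈ F)
    (ψ : Set ℝ → Set ℝ) (hψ : IsMonotoneBorelHull F ψ) : False := by
  classical
  obtain ⟨hhull, hmono⟩ := hψ
  obtain ⟨n, hn⟩ := exists_labels
  -- compact sets avoiding the hull of a small open set
  let κ : ℕ → Set ℝ → Set ℝ := fun k O =>
    Classical.epsilon (fun K => IsCompact K ∧ K ⊆ Icc 0 1 \ ψ O ∧ 1 < volume K + 2 * eps k)
  have hκ : ∀ k O, IsOpen O → volume O < eps k →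
      IsCompact (κ k O) ∧ κ k O ⊆ Icc 0 1 \ ψ O ∧ 1 < volume (κ k O) + 2 * eps k := by
    intro k O hO hOk
    refine Classical.epsilon_spec
      (p := fun K => IsCompact K ∧ K ⊆ Icc 0 1 \ ψ O ∧ 1 < volume K + 2 * eps k) ?_
    obtain ⟨hm, hsub, hz⟩ := hhull O (hopen O hO)
    have h1 : volume (ψ O) < eps k := by
      calc volume (ψ O) ≤ volume (O ∪ (ψ O \ O)) := measure_mono (by
              intro x hx
              by_cases hxO : x ∈ O
              · exact Or.inl hxO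
              · exact Or.inr ⟨hx, hxO⟩)
        _ ≤ volume O + volume (ψ O \ O) := measure_union_le _ _
        _ = volume O := by rw [hz, add_zero]
        _ < eps k := hOk
    have hmeas : MeasurableSet (Icc (0 : ℝ) 1 \ ψ O) := measurableSet_Icc.diff hm
    have h2 : 1 ≤ volume (Icc (0 : ℝ) 1 \ ψ O) + eps k := by
      calc (1 : ℝ≥0∞) = volume (Icc (0 : ℝ) 1) := by simp
        _ ≤ volume ((Icc (0 : ℝ) 1 \ ψ O) ∪ ψ O) := measure_mono (by
              intro x hx
              by_cases hxO : x ∈ ψ O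
              · exact Or.inr hxO
              · exact Or.inl ⟨hx, hxO⟩)
        _ ≤ volume (Icc (0 : ℝ) 1 \ ψ O) + volume (ψ O) := measure_union_le _ _
        _ ≤ volume (Icc (0 : ℝ) 1 \ ψ O) + eps k := by gcongr
    have h3 : 1 - 2 * eps k < volume (Icc (0 : ℝ) 1 \ ψ O) := by
      have hv : volume (Icc (0 : ℝ) 1 \ ψ O) ≠ 0 := by
        intro h0
        rw [h0, zero_add] at h2
        have := h2.trans (eps_le k)
        norm_num at this
      refine ENNReal.sub_lt_of_lt_add ?_ ?_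
      · calc 2 * eps k ≤ 2 * 4⁻¹ := by gcongr; exact eps_le k
          _ ≤ 4 * 4⁻¹ := by gcongr; norm_num
          _ = 1 := ENNReal.mul_inv_cancel (by simp) (by simp)
      · calc (1 : ℝ≥0∞) ≤ volume (Icc (0 : ℝ) 1 \ ψ O) + eps k := h2
          _ < volume (Icc (0 : ℝ) 1 \ ψ O) + 2 * eps k := by
            refine ENNReal.add_lt_add_left ?_ ?_
            · exact ne_top_of_le_ne_top (by simp) (measure_mono (sdiff_subset (s := Icc (0:ℝ) 1)))
            · rw [two_mul]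
              exact ENNReal.lt_add_right (eps_ne_top k) (eps_pos k).ne'
    obtain ⟨K, hK1, hK2, hK3⟩ := hmeas.exists_lt_isCompact h3
    refine ⟨K, hK2, hK1, ?_⟩
    exact ENNReal.lt_add_of_sub_lt_right (Or.inl (by simp)) hK3
  -- the recursion
  let step : ∀ i : Idx, (∀ j : Idx, j < i → Set ℝ) → Set ℝ := fun i rec =>
    Classical.choose (exists_open (κ := ↥(Iio i))
      ((Iic_countable i).mono Iio_subset_Iic_self).to_subtype
      (fun j => κ (n j) (rec j j.2)) (eps (n i)) (eps_pos (n i)))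
  let O : Idx → Set ℝ := (wellFounded_lt (α := Idx)).fix step
  have hOeq : ∀ i, O i = step i (fun j _ => O j) := fun i => WellFounded.fix_eq _ _ i
  have hOspec : ∀ i, IsOpen (O i) ∧ volume (O i) < eps (n i) ∧ Dense (O i) ∧
      ∀ j : ↥(Iio i), κ (n j) (O j) ⊆ closure (O i ∩ κ (n j) (O j)) := by
    intro i
    have := Classical.choose_spec (exists_open (κ := ↥(Iio i))
      ((Iic_countable i).mono Iio_subset_Iic_self).to_subtype
      (fun j => κ (n j) (O j)) (eps (n i)) (eps_pos (n i)))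
    rw [hOeq i]
    exact this
  let K : Idx → Set ℝ := fun i => κ (n i) (O i)
  have hO : ∀ i, IsOpen (O i) := fun i => (hOspec i).1
  have hKspec : ∀ i, IsCompact (K i) ∧ K i ⊆ Icc 0 1 \ ψ (O i) ∧
      1 < volume (K i) + 2 * eps (n i) := fun i => hκ _ _ (hO i) (hOspec i).2.1
  have hKO : ∀ i j, j < i → K j ⊆ closure (O i ∩ K j) := fun i j hj =>
    (hOspec i).2.2.2 ⟨j, hj⟩
  have hmeet : ∀ (a : Finset Idx) (β : Idx) (N : ℕ), ∃ i, β < i ∧ (∀ j ∈ a, j < i) ∧ N ≤ n i ∧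
      (K i ∩ ⋂ j ∈ a, O j).Nonempty := by
    intro a β N
    have hdense : Dense (⋂ j ∈ (a : Set Idx), O j) :=
      dense_biInter_of_isOpen (fun j _ => hO j) a.countable_toSet (fun j _ => (hOspec j).2.2.1)
    have hopenW : IsOpen (Ioo (0 : ℝ) 1 ∩ ⋂ j ∈ a, O j) :=
      isOpen_Ioo.inter (isOpen_biInter_finset (fun j _ => hO j))
    have hWne : (Ioo (0 : ℝ) 1 ∩ ⋂ j ∈ a, O j).Nonempty :=
      hdense.inter_open_nonempty _ isOpen_Ioo ⟨1 / 2, by norm_num, by norm_num⟩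
    have hWpos : volume (Ioo (0 : ℝ) 1 ∩ ⋂ j ∈ a, O j) ≠ 0 :=
      (hopenW.measure_pos volume hWne).ne'
    obtain ⟨k, hk⟩ := exists_eps_lt _ hWpos
    obtain ⟨b, hb⟩ := Idx_bdd (insert β (a : Set Idx)) (a.countable_toSet.insert β)
    obtain ⟨i, hbi, hni⟩ := hn b (max k N)
    refine ⟨i, (hb β (mem_insert _ _)).trans hbi,
      fun j hj => (hb j (mem_insert_of_mem _ hj)).trans hbi, by rw [hni]; exact le_max_right _ _,
      ?_⟩
    by_contra hemp
    rw [not_nonempty_iff_eq_empty] at hemp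
    have hdisj : Disjoint (K i) (Ioo (0 : ℝ) 1 ∩ ⋂ j ∈ a, O j) := by
      rw [Set.disjoint_left]
      rintro x hxK ⟨-, hx⟩
      have : x ∈ K i ∩ ⋂ j ∈ a, O j := ⟨hxK, hx⟩
      rw [hemp] at this
      exact this
    have h1 : volume (K i) + volume (Ioo (0 : ℝ) 1 ∩ ⋂ j ∈ a, O j) ≤ 1 := by
      rw [← measure_union hdisj hopenW.measurableSet]
      calc volume (K i ∪ (Ioo (0 : ℝ) 1 ∩ ⋂ j ∈ a, O j)) ≤ volume (Icc (0 : ℝ) 1) :=
            measure_mono (union_subset ((hKspec i).2.1.trans sdiff_subset)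
              (inter_subset_left.trans Ioo_subset_Icc_self))
        _ = 1 := by simp
    have h2 : 1 < volume (K i) + 2 * eps (n i) := (hKspec i).2.2
    have h3 : 2 * eps (n i) ≤ volume (Ioo (0 : ℝ) 1 ∩ ⋂ j ∈ a, O j) :=
      (hk (n i) (by rw [hni]; exact le_max_left _ _)).le
    exact absurd (h2.trans_le ((add_le_add_right h3 _).trans h1)) (lt_irrefl _)
  have hIc : #Idx < 𝔠 := by rw [mk_Idx]; exact hCH
  obtain ⟨S, y, hS, hyK, hyO⟩ := exists_tower hMA hIc hO (fun i => (hKspec i).1) hKO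
    Iic_countable Idx_bdd n hmeet
  -- the null set and the Borel set
  set M : Set ℝ := ⋂ i ∈ S, O i with hM
  have hMO : ∀ i ∈ S, M ⊆ O i := fun i hi => biInter_subset_of_mem hi
  have hM0 : volume M = 0 := by
    by_contra hne
    obtain ⟨k, hk⟩ := exists_eps_lt _ hne
    obtain ⟨b, -⟩ := Idx_bdd ∅ countable_empty
    obtain ⟨i, hi, -, hki⟩ := hS b k
    have h1 : volume M ≤ eps (n i) := (measure_mono (hMO i hi)).trans (hOspec i).2.1.le
    have h2 : 2 * eps (n i) < volume M := hk _ hki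
    have h3 : eps (n i) ≤ 2 * eps (n i) := by
      rw [two_mul]; exact le_self_add
    exact absurd (h2.trans_le (h1.trans h3)) (lt_irrefl _)
  obtain ⟨hm, hMsub, -⟩ := hhull M (hnull M hM0)
  have hyR : ∀ i ∈ S, y i ∈ (ψ M)ᶜ := by
    intro i hi hyM
    have h1 : ψ M ⊆ ψ (O i) := hmono M (hnull M hM0) (O i) (hopen _ (hO i)) (hMO i hi)
    exact ((hKspec i).2.1 (hyK i hi)).2 (h1 hyM)
  have hcov : (ψ M)ᶜ ⊆ ⋃ i : ↥S, (O i)ᶜ := by
    intro x hx
    have hxM : x ∉ M := fun h => hx (hMsub h)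
    rw [hM] at hxM
    simp only [mem_iInter, not_forall] at hxM
    obtain ⟨i, hi, hxi⟩ := hxM
    exact mem_iUnion.2 ⟨⟨i, hi⟩, hxi⟩
  obtain ⟨T, hT, hTc⟩ := borel_subcover hMA (ι := ↥S)
    (lt_of_le_of_lt (mk_set_le S) hIc) _ hm.compl (fun i : ↥S => (O i)ᶜ)
    (fun i => (hO i).isClosed_compl) hcov
  obtain ⟨b, hb⟩ := Idx_bdd ((fun i : ↥S => (i : Idx)) '' T) (hT.image _)
  obtain ⟨j, hj, hbj, -⟩ := hS b 0
  obtain ⟨i, hiT, hyi⟩ := mem_iUnion₂.1 (hTc (hyR j hj))
  exact hyi (hyO i i.2 j hj ((hb i (mem_image_of_mem _ hiT)).trans hbj))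

end Pool.Agent.W_MP_97b08f_lc
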